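import Mathlib
import Pool.Agent.Q184.Tame

set_option autoImplicit false

namespace Pool.Agent.Results.MP_2740df_an.NotFlexible

open Pool.Agent.Q184.Tame

/-- There is a connected open subset `X` of `ℂ³` which is holomorphically convex (hence a Stein
manifold), on which the holomorphic automorphisms act transitively and which contains a tame set, but
which is not holomorphically flexible. -/
theorem result : ∃ X : Set (ℂ × ℂ × ℂ), IsOpen X ∧ IsConnected X ∧ HoloConvex X ∧
    AutTransitive X ∧ (∃ A : Set (ℂ × ℂ × ℂ), IsTame X A) ∧ ¬ Flexible X :=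
  ⟨XX, XX_open, XX_connected, XX_holoConvex, XX_transitive, ⟨AA, AA_tame⟩, XX_not_flexible⟩

end Pool.Agent.Results.MP_2740df_an.NotFlexible
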